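import Pool.Agent.SGL.StmtsG
import Pool.Agent.Helper59_SGD.Asm

/-!
# Squad SGL, row TT2: two-track graphs, all separating triangles contain one vertex
-/

noncomputable section

namespace Pool.Agent.SGL.H47

open Pool.Agent.SGE Pool.Agent.SGP Pool.Agent.SGY Pool.Agent.SGD Pool.Agent.SGD.H7

theorem tt2 (hRla : RlaStmt) : Tt2Stmt := by
  classical
  have hTrk : TrkStmt := H92.trk H66.dp2 H91.srn
  have hAsm : AsmStmt := H65.asm H59.siz H77.csg H59.sgn
  have hNx2 : Nx2Stmt := H3.nx2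
  have hGnz : GnzStmt := H70.gnz
  intro n G₁ G₂ T a hMax hHit hle c X r hTT
  obtain ⟨fT, hfT⟩ := hMax.1
  by_cases hX : X.ncard ≤ 1
  · obtain ⟨v, hv⟩ := small_set X c hX
    refine Pool.Agent.SGY.H73.thyA n G₁ G₂ ⟨fT, draw_mono hle hfT⟩ v ?_
    refine ⟨fun u => r u.1, ?_, ?_⟩
    · intro u w huw
      exact Subtype.ext (hTT.inj huw)
    · intro x y z t h1 h2 h3
      exact hTT.py x.1 y.1 z.1 t.1 (hv _ x.2) (hv _ y.2) (hv _ z.2) (hv _ t.2) h1 h2 h3
  by_cases hY : {y | y ∉ X ∧ y ≠ c}.ncard ≤ 1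
  · obtain ⟨v, hv⟩ := small_set {y | y ∉ X ∧ y ≠ c} c hY
    have hv' : ∀ u, u ≠ v → u ∈ X ∨ u = c := by
      intro u hu
      by_contra hcon
      push Not at hcon
      exact hv u hu hcon
    refine Pool.Agent.SGY.H73.thyA n G₁ G₂ ⟨fT, draw_mono hle hfT⟩ v ?_
    refine ⟨fun u => r u.1, ?_, ?_⟩
    · intro u w huw
      exact Subtype.ext (hTT.inj huw)
    · intro x y z t h1 h2 h3
      exact hTT.px x.1 y.1 z.1 t.1 (hv' _ x.2) (hv' _ y.2) (hv' _ z.2) (hv' _ t.2) h1 h2 h3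
  obtain ⟨k₁, hk₁⟩ : ∃ k₁, X.ncard = k₁ + 1 := ⟨X.ncard - 1, by omega⟩
  obtain ⟨k₂, hk₂⟩ : ∃ k₂, {y | y ∉ X ∧ y ≠ c}.ncard = k₂ + 1 :=
    ⟨{y | y ∉ X ∧ y ≠ c}.ncard - 1, by omega⟩
  have h1k₁ : 1 ≤ k₁ := by omega
  have h1k₂ : 1 ≤ k₂ := by omega
  have hn : n = k₁ + k₂ + 3 := by
    have h1 := Set.ncard_add_ncard_compl X
    rw [Nat.card_fin] at h1
    have h2 : Xᶜ = insert c {y | y ∉ X ∧ y ≠ c} := by
      ext y
      rw [Set.mem_compl_iff, Set.mem_insert_iff, Set.mem_ofPred_eq]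
      constructor
      · intro h
        by_cases hy : y = c
        · exact Or.inl hy
        · exact Or.inr ⟨h, hy⟩
      · rintro (h | h)
        · rw [h]
          exact hTT.cX
        · exact h.1
    have h3 : c ∉ {y | y ∉ X ∧ y ≠ c} := fun h => h.2 rfl
    rw [h2, Set.ncard_insert_of_notMem h3 (Set.toFinite _), hk₁, hk₂] at h1
    omega
  have h3n : 3 ≤ n := by omega
  obtain ⟨b, c', E, F, hNT, hE, hiso, hRel, hNS⟩ := hRla T a h3n hMax hHit
  have hnd := hNT.nd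
  have hrel_inl : ∀ x, Rel E x → ∃ u, x = Sum.inl u := by
    intro x hx
    obtain ⟨y, hy⟩ := hx
    rcases x with u | i
    · exact ⟨u, rfl⟩
    · exact absurd hy (hiso i y).1
  have hcard : (Inn (Sum.inl a) (Sum.inl b) (Sum.inl c') E).ncard = k₁ + k₂ := by
    have h1 : Inn (Sum.inl a) (Sum.inl b) (Sum.inl c') E =
        (Sum.inl '' ({a, b, c'} : Set (Fin n))ᶜ : Set (Fin n ⊕ Fin 3)) := by
      ext x
      constructor
      · rintro ⟨hxa, hxb, hxc, hx⟩
        obtain ⟨u, rfl⟩ := hrel_inl x hx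
        refine ⟨u, ?_, rfl⟩
        intro hu
        rcases hu with hu | hu | hu
        · exact hxa (by rw [hu])
        · exact hxb (by rw [hu])
        · exact hxc (by rw [hu])
      · rintro ⟨u, hu, rfl⟩
        refine ⟨?_, ?_, ?_, hRel u⟩
        · intro h
          exact hu (Or.inl (Sum.inl_injective h))
        · intro h
          exact hu (Or.inr (Or.inl (Sum.inl_injective h)))
        · intro h
          exact hu (Or.inr (Or.inr (Sum.inl_injective h)))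
    rw [h1, Set.ncard_image_of_injective _ Sum.inl_injective]
    have h2 := Set.ncard_add_ncard_compl ({a, b, c'} : Set (Fin n))
    rw [Nat.card_fin] at h2
    have h3 : ({a, b, c'} : Set (Fin n)).ncard = 3 := by
      rw [Set.ncard_eq_three]
      refine ⟨a, b, c', ?_, ?_, ?_, rfl⟩
      · intro h
        apply hNT.ab
        rw [h]
      · intro h
        simp [h] at hnd
      · intro h
        simp [h] at hnd
    omega
  obtain ⟨e₁, e₂, D₁, D₂, S, he1, he2, het, he12, hes, hS, hadj⟩ := hTrk G₂ c X r k₁ k₂ hTT hk₁ hk₂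
  obtain ⟨g, p₁, p₂, hGT, hGX, hpt, hr1, hr2, hp1, hp2, hp12⟩ :=
    hAsm hNT hNS k₁ k₂ h1k₁ h1k₂ hcard D₁ D₂
  -- injectivity of placements
  have hinj : ∀ ψ : Fin n → Fin n ⊕ Fin 3, Function.Injective ψ → (∀ u, Rel E (ψ u)) →
      (∀ x y w, x ≠ y → x ≠ w → y ≠ w → o (g (ψ x)) (g (ψ y)) (g (ψ w)) ≠ 0) ∧
      Function.Injective (fun u => g (ψ u)) := by
    intro ψ hψ hψR
    have h1 : ∀ x y w, x ≠ y → x ≠ w → y ≠ w → o (g (ψ x)) (g (ψ y)) (g (ψ w)) ≠ 0 := by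
      intro x y w hxy hxw hyw
      exact hGT.gp _ _ _ (hψR x) (hψR y) (hψR w) (fun h => hxy (hψ h)) (fun h => hxw (hψ h))
        (fun h => hyw (hψ h))
    refine ⟨h1, ?_⟩
    intro u v huv
    by_contra hne
    obtain ⟨w, hwu, hwv⟩ := third h3n u v
    refine h1 u v w hne (Ne.symm hwu) (Ne.symm hwv) ?_
    have huv' : g (ψ u) = g (ψ v) := huv
    rw [huv', o_pp]
  obtain ⟨hgp1, hinj1⟩ := hinj (fun u => Sum.inl u) Sum.inl_injective hRel
  refine ⟨Finset.univ.image (fun u : Fin n => g (Sum.inl u)), ?_, ?_, ?_⟩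
  · rw [Finset.card_image_of_injective _ hinj1, Finset.card_univ, Fintype.card_fin]
  · refine ⟨fun u => g (Sum.inl u), ?_, fun u => Finset.mem_image_of_mem _ (Finset.mem_univ u)⟩
    obtain ⟨z, hz⟩ := hGnz (fun u : Fin n => g (Sum.inl u)) hinj1
    refine Pool.Agent.SGP.H19.drw Pool.Agent.SGE.H99.seg z hgp1 hz ?_
    intro x y w t hxy hwt
    exact Pool.Agent.SGY.H95.fpl hNT hGT _ _ _ _ ((hE x y).mpr (hle hxy)) ((hE w t).mpr (hle hwt))
  · obtain ⟨φ, hφ, hφR, hφp⟩ := transfer he1 he2 het he12 hes hp1 hp2 hpt hp12 (Rel E) hr1 hr2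
    obtain ⟨hgp2, hinj2⟩ := hinj φ hφ hφR
    refine ⟨fun u => g (φ u), ?_, ?_⟩
    · obtain ⟨z, hz⟩ := hGnz (fun u : Fin n => g (φ u)) hinj2
      refine Pool.Agent.SGP.H19.drw Pool.Agent.SGE.H99.seg z hgp2 hz ?_
      intro x y w t hxy hwt hX
      obtain ⟨p, q, hpq, hpq'⟩ := hadj x y hxy
      obtain ⟨p', q', hpq2, hpq2'⟩ := hadj w t hwt
      have hval : ∀ s, Val k₁ k₂ s → vt (fun i => g (p₁ i)) (fun j => g (p₂ j)) s =
          g (φ (vt e₁ e₂ s)) := by
        intro s hs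
        rw [hφp s hs]
        unfold vt
        split_ifs <;> rfl
      have key := hNx2 k₁ k₂ D₁ D₂ S _ _ hGX hS p q p' q' hpq hpq2
      rw [hval p (xe_val hpq).1, hval q (xe_val hpq).2, hval p' (xe_val hpq2).1,
        hval q' (xe_val hpq2).2] at key
      rcases hpq' with ⟨h1, h2⟩ | ⟨h1, h2⟩
      · rcases hpq2' with ⟨h3, h4⟩ | ⟨h3, h4⟩
        · rw [h1, h2, h3, h4] at key
          exact key hX
        · rw [h1, h2, h3, h4] at key
          exact key (xs_right hX)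
      · rcases hpq2' with ⟨h3, h4⟩ | ⟨h3, h4⟩
        · rw [h1, h2, h3, h4] at key
          exact key (xs_left hX)
        · rw [h1, h2, h3, h4] at key
          exact key (xs_left (xs_right hX))
    · intro u
      obtain ⟨w, hw⟩ := hrel_inl (φ u) (hφR u)
      rw [Finset.mem_image]
      refine ⟨w, Finset.mem_univ w, ?_⟩
      show g (Sum.inl w) = g (φ u)
      rw [hw]

end Pool.Agent.SGL.H47
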